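import Pool.Agent.Helper78.TR.Defs

/-! Project TR, leaf A: the digit vectors in one residue class. -/

set_option autoImplicit false

namespace Pool.Agent.Helper78.TR

open Finset Filter Pool.Agent.Helper10 Pool.Agent.Helper10.P5 Pool.Agent.Helper10.P4
  Pool.Agent.Helper10.P3 Pool.Agent.Helper10.SQ Pool.Agent.Helper10.EN

private lemma card_class_EC (n M r : ℕ) (hM : 0 < M) :
    ((EP n).filter (fun e => FPal n e ≡ r [MOD M])).card =
      ∑ c ∈ ({1, 3, 7, 9} : Finset ℕ), ∑ d ∈ range 10, cnt5 10 (n - 1) (sh n c d M r) M := by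
  classical
  rw [Finset.card_filter]
  unfold EP
  rw [Finset.sum_product]
  apply Finset.sum_congr rfl
  intro c _
  rw [Finset.sum_product]
  apply Finset.sum_congr rfl
  intro d _
  unfold cnt5
  rw [Finset.card_filter]
  apply Finset.sum_congr rfl
  intro f _
  simp only [FPal, PN_mod n c d M r hM f]

/-- TR-A. -/
theorem class_EC (n M r : ℕ) (hn : 1 ≤ n) (hM : 0 < M) :
    |(((EP n).filter (fun e => FPal n e ≡ r [MOD M])).card : ℝ) - 4 * 10 ^ n / M| ≤ rP n M := by
  classical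
  rw [card_class_EC n M r hM]
  have h2 : (4 * (10 : ℝ) ^ n) / M = ∑ c ∈ ({1, 3, 7, 9} : Finset ℕ), ∑ d ∈ range 10,
      (10 : ℝ) ^ (n - 1) / M := by
    rw [Finset.sum_const, Finset.sum_const, Finset.card_range]
    obtain ⟨k, rfl⟩ : ∃ k, n = k + 1 := ⟨n - 1, by omega⟩
    have h4 : ({1, 3, 7, 9} : Finset ℕ).card = 4 := by decide
    rw [Nat.add_sub_cancel, pow_succ, h4]
    simp only [nsmul_eq_mul]
    push_cast
    ring
  rw [h2]
  push_cast
  rw [← Finset.sum_sub_distrib]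
  refine (Finset.abs_sum_le_sum_abs _ _).trans ?_
  have h3 : ∀ c ∈ ({1, 3, 7, 9} : Finset ℕ), |∑ d ∈ range 10,
      ((cnt5 10 (n - 1) (sh n c d M r) M : ℕ) : ℝ) -
      ∑ d ∈ range 10, (10 : ℝ) ^ (n - 1) / M| ≤
      10 * (10 ^ (n - 1) / M * ∑ d ∈ M.divisors.erase 1, Psi5 10 (n - 1) d) := by
    intro c _
    rw [← Finset.sum_sub_distrib]
    refine (Finset.abs_sum_le_sum_abs _ _).trans ?_
    calc ∑ d ∈ range 10, |((cnt5 10 (n - 1) (sh n c d M r) M : ℕ) : ℝ) -
          (10 : ℝ) ^ (n - 1) / M|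
        ≤ ∑ d ∈ range 10, (10 ^ (n - 1) / M * ∑ d ∈ M.divisors.erase 1, Psi5 10 (n - 1) d) :=
          Finset.sum_le_sum fun d _ => count5 10 (n - 1) _ M hM
      _ = _ := by
          rw [Finset.sum_const, Finset.card_range, nsmul_eq_mul]
          norm_num
  refine (Finset.sum_le_sum h3).trans ?_
  have h4 : ({1, 3, 7, 9} : Finset ℕ).card = 4 := by decide
  rw [Finset.sum_const, h4, nsmul_eq_mul]
  unfold rP
  apply le_of_eq
  push_cast
  ring

end Pool.Agent.Helper78.TR
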